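import Pool.Agent.SHP.Stmts

set_option autoImplicit false

namespace Pool.Agent.SHP.H40

/-- Common facts in the far case. -/
theorem far_basic {f g : ℕ} (hg : 0 < g) (hf : (10 * g) ^ 12 ≤ f) :
    10 ^ 12 * g ^ 2 ≤ f ∧ g < f := by
  have h1 : (10 * g) ^ 12 = 10 ^ 12 * g ^ 12 := by ring
  have h2 : g ^ 2 ≤ g ^ 12 := Nat.pow_le_pow_right hg (by norm_num)
  have h3 : 10 ^ 12 * g ^ 2 ≤ f := le_trans (Nat.mul_le_mul_left _ h2) (h1 ▸ hf)
  refine ⟨h3, ?_⟩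
  have h4 : g ≤ g ^ 2 := by nlinarith
  nlinarith

theorem f1b (hpin : PinStmt) : F1bStmt := by
  intro f g x y z hg hcop hodd hf hx hy hz hlt heq
  obtain ⟨h12, hgf⟩ := far_basic hg hf
  set A : ℕ := f ^ 2 - g ^ 2 with hA
  set B : ℕ := 2 * f * g with hB
  set C : ℕ := f ^ 2 + g ^ 2 with hC
  have hgf2 : g ^ 2 < f ^ 2 := Nat.pow_lt_pow_left hgf (by norm_num)
  have hAf : A + g ^ 2 = f ^ 2 := by omega
  have hApos : 0 < A := by omega
  have hBpos : 0 < B := Nat.mul_pos (Nat.mul_pos two_pos (by omega)) hg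
  have hCpos : 0 < C := by positivity
  have hg2 : 0 < g ^ 2 := by positivity
  have hAC : A < C := by omega
  have hpyth : A ^ 2 + B ^ 2 = C ^ 2 := by
    have : (A : ℤ) = f ^ 2 - g ^ 2 := by
      have := hAf; zify at this; linarith
    zify
    rw [this, hB, hC]; push_cast; ring
  have hBC : B < C := by
    by_contra h
    push Not at h
    have : C ^ 2 ≤ B ^ 2 := Nat.pow_le_pow_left h 2
    have : 0 < A ^ 2 := by positivity
    omega
  have hCB2 : C < B ^ 2 := by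
    rw [hC, hB]
    have h1 : 1 ≤ g ^ 2 := hg2
    have h2 : (2 * f * g) ^ 2 = 4 * (f ^ 2 * g ^ 2) := by ring
    rw [h2]
    have h3 : f ^ 2 ≤ f ^ 2 * g ^ 2 := Nat.le_mul_of_pos_right _ hg2
    omega
  -- x < z
  have hAzC : C ^ x < A ^ z := by
    have : 0 < B ^ y := by positivity
    omega
  have hxz : x < z := by
    by_contra h
    push Not at h
    have h1 : A ^ z ≤ A ^ x := Nat.pow_le_pow_right hApos h
    have h2 : A ^ x ≤ C ^ x := Nat.pow_le_pow_left hAC.le x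
    omega
  refine ⟨hxz, ?_⟩
  obtain ⟨κ, rfl⟩ : ∃ κ, z = x + κ := ⟨z - x, by omega⟩
  have hκ : x + κ - x = κ := by omega
  rw [hκ]
  set n := y / 4 with hn
  rcases Nat.eq_zero_or_pos n with h0 | hnpos
  · rw [h0]
    have : 0 < A ^ (4 * κ) := by positivity
    simp only [mul_zero, pow_zero, mul_one]
    omega
  have h4n : 4 * n ≤ y := Nat.mul_div_le y 4
  have hy2x : y < 2 * x := by
    by_contra h
    push Not at h
    have h1 : B ^ (2 * x) ≤ B ^ y := Nat.pow_le_pow_right hBpos h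
    have h2 : C ^ x ≤ (B ^ 2) ^ x := Nat.pow_le_pow_left hCB2.le x
    rw [← pow_mul] at h2
    omega
  have hnx : n + 1 ≤ x := by omega
  -- the Pade data
  obtain ⟨P, Q, hne, ⟨K, hK⟩, hP, hQ, -⟩ := hpin x n hnpos hnx ((C : ℤ) ^ 2) (-((B : ℤ) ^ 2))
    (by positivity) (by
      have : (0 : ℤ) < (B : ℤ) ^ 2 := by positivity
      omega) ((A : ℤ) ^ (2 * κ)) 1 (Or.inr one_ne_zero)
  have hpyZ : ((C : ℤ) ^ 2 + -((B : ℤ) ^ 2)) = (A : ℤ) ^ 2 := by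
    have := hpyth; zify at this; linarith
  rw [hpyZ] at hK
  set I : ℤ := Q * 1 - P * (A : ℤ) ^ (2 * κ) with hI
  -- divisibility
  have hdvd1 : ((B : ℤ) ^ (4 * n)) ∣ (A : ℤ) ^ (2 * x) * I := by
    have heqZ : (C : ℤ) ^ x + (B : ℤ) ^ y = (A : ℤ) ^ (x + κ) := by exact_mod_cast heq
    have e1 : (A : ℤ) ^ (2 * x) * I =
        (Q * ((A : ℤ) ^ 2) ^ x - P * ((C : ℤ) ^ 2) ^ x)
          - P * ((B : ℤ) ^ y * (2 * (C : ℤ) ^ x + (B : ℤ) ^ y)) := by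
      have e2 : (A : ℤ) ^ (2 * x) * (A : ℤ) ^ (2 * κ) = ((A : ℤ) ^ (x + κ)) ^ 2 := by
        rw [← pow_add, ← pow_mul]; ring_nf
      have e3 : ((A : ℤ) ^ 2) ^ x = (A : ℤ) ^ (2 * x) := by rw [← pow_mul]
      have e4 : ((C : ℤ) ^ 2) ^ x = ((C : ℤ) ^ x) ^ 2 := by rw [← pow_mul, ← pow_mul, mul_comm]
      rw [e3, e4, hI]
      have : (A : ℤ) ^ (2 * x) * (Q * 1 - P * (A : ℤ) ^ (2 * κ)) =
          Q * (A : ℤ) ^ (2 * x) - P * ((A : ℤ) ^ (2 * x) * (A : ℤ) ^ (2 * κ)) := by ring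
      rw [this, e2, ← heqZ]
      ring
    rw [e1]
    apply dvd_sub
    · rw [hK]
      have : (-((B : ℤ) ^ 2)) ^ (2 * n) = (B : ℤ) ^ (4 * n) := by
        rw [neg_pow, pow_mul (-1 : ℤ) 2 n]
        simp only [even_two, Even.neg_pow, one_pow, one_mul]
        rw [← pow_mul]
        congr 1
        ring
      rw [this]
      exact dvd_mul_right _ _
    · exact Dvd.dvd.mul_left (Dvd.dvd.mul_right (pow_dvd_pow _ h4n) _) _
  have hcopAB : IsCoprime ((B : ℤ) ^ (4 * n)) ((A : ℤ) ^ (2 * x)) := by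
    apply IsCoprime.pow
    rw [Nat.isCoprime_iff_coprime]
    -- gcd(2 f g, f^2 - g^2) = 1
    have hAodd : Nat.Coprime 2 A := by
      rw [Nat.coprime_comm, Nat.coprime_two_right]
      have h1 : A = (f - g) * (f + g) := by
        rw [hA, Nat.sq_sub_sq, mul_comm]
      have h2 : Odd (f - g) := by
        rcases hodd with ⟨t, ht⟩
        exact ⟨t - g, by omega⟩
      rw [h1]
      exact h2.mul hodd
    have hfA : Nat.Coprime f A := by
      have h1 : Nat.Coprime (f ^ 2) (g ^ 2) := Nat.Coprime.pow 2 2 hcop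
      have h2 : Nat.Coprime (f ^ 2) A := by
        have : Nat.Coprime (A + g ^ 2) (g ^ 2) := by rw [hAf]; exact h1
        have h3 : Nat.Coprime A (g ^ 2) := Nat.coprime_add_self_left.1 this
        rw [← hAf]
        exact Nat.coprime_self_add_left.2 h3.symm
      exact Nat.Coprime.coprime_dvd_left (dvd_pow_self f (by norm_num)) h2
    have hgA : Nat.Coprime g A := by
      have h1 : Nat.Coprime (f ^ 2) (g ^ 2) := Nat.Coprime.pow 2 2 hcop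
      have : Nat.Coprime (A + g ^ 2) (g ^ 2) := by rw [hAf]; exact h1
      have h3 : Nat.Coprime A (g ^ 2) := Nat.coprime_add_self_left.1 this
      exact Nat.Coprime.coprime_dvd_left (dvd_pow_self g (by norm_num)) h3.symm
    rw [hB]
    exact Nat.Coprime.mul_left (Nat.Coprime.mul_left hAodd hfA) hgA
  have hdvd : ((B : ℤ) ^ (4 * n)) ∣ I := hcopAB.dvd_of_dvd_mul_left hdvd1
  have hle1 : (B : ℤ) ^ (4 * n) ≤ |I| := by
    apply Int.le_of_dvd (abs_pos.2 hne)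
    exact (dvd_abs _ _).2 hdvd
  -- bounds
  have hP1 := hP 1 le_rfl
  have hQ1 := hQ 1 le_rfl
  have hCR : (0 : ℝ) < (C : ℝ) := by exact_mod_cast hCpos
  have hBR : (0 : ℝ) < (B : ℝ) := by exact_mod_cast hBpos
  have hAR : (0 : ℝ) < (A : ℝ) := by exact_mod_cast hApos
  have hpyR : (A : ℝ) ^ 2 + (B : ℝ) ^ 2 = (C : ℝ) ^ 2 := by exact_mod_cast hpyth
  have habs : |((-((B : ℤ) ^ 2) : ℤ) : ℝ)| = (B : ℝ) ^ 2 := by
    push_cast
    rw [abs_neg, abs_of_nonneg (by positivity)]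
  rw [habs] at hP1 hQ1
  push_cast at hP1 hQ1
  set v : ℝ := 1 + (B : ℝ) ^ 2 / ((C : ℝ) ^ 2 * 1) with hv
  have hv1 : v ≤ ((C : ℝ) / A) ^ 2 := by
    rw [hv, mul_one, div_pow, add_comm, div_add_one (by positivity), div_le_div_iff₀ (by positivity) (by positivity)]
    nlinarith [sq_nonneg ((B : ℝ) ^ 2)]
  have hv2 : v ≤ 2 := by
    rw [hv, mul_one]
    have : (B : ℝ) ^ 2 / (C : ℝ) ^ 2 ≤ 1 := by
      rw [div_le_one (by positivity)]
      nlinarith [sq_nonneg (A : ℝ)]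
    linarith
  have hv0 : 0 < v := by positivity
  have hvx : v ^ (x + n) ≤ (A : ℝ) ^ (2 * κ) * 2 ^ n := by
    rw [pow_add]
    apply mul_le_mul _ (pow_le_pow_left₀ hv0.le hv2 n) (by positivity) (by positivity)
    calc v ^ x ≤ (((C : ℝ) / A) ^ 2) ^ x := pow_le_pow_left₀ hv0.le hv1 x
      _ = (((C : ℝ) ^ x) / (A : ℝ) ^ x) ^ 2 := by rw [← pow_mul, mul_comm, pow_mul, div_pow]
      _ ≤ ((A : ℝ) ^ κ) ^ 2 := by
          apply pow_le_pow_left₀ (by positivity)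
          rw [div_le_iff₀ (by positivity), ← pow_add]
          have h1 : C ^ x ≤ A ^ (x + κ) := hAzC.le
          have h2 : (C : ℝ) ^ x ≤ (A : ℝ) ^ (x + κ) := by exact_mod_cast h1
          rwa [add_comm x κ] at h2
      _ = (A : ℝ) ^ (2 * κ) := by rw [← pow_mul, mul_comm]
  have hbnd : 4 ^ n * ((C : ℝ) ^ 2) ^ n * 1 ^ n * v ^ (x + n) ≤
      8 ^ n * (C : ℝ) ^ (2 * n) * (A : ℝ) ^ (2 * κ) := by
    calc 4 ^ n * ((C : ℝ) ^ 2) ^ n * 1 ^ n * v ^ (x + n)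
        ≤ 4 ^ n * ((C : ℝ) ^ 2) ^ n * 1 ^ n * ((A : ℝ) ^ (2 * κ) * 2 ^ n) := by
          apply mul_le_mul_of_nonneg_left hvx (by positivity)
      _ = (4 * 2) ^ n * (C : ℝ) ^ (2 * n) * (A : ℝ) ^ (2 * κ) := by
          rw [mul_pow, one_pow, ← pow_mul]; ring
      _ = 8 ^ n * (C : ℝ) ^ (2 * n) * (A : ℝ) ^ (2 * κ) := by norm_num
  have hP2 : |(P : ℝ)| ≤ 8 ^ n * (C : ℝ) ^ (2 * n) * (A : ℝ) ^ (2 * κ) := le_trans hP1 hbnd
  have hQ2 : |(Q : ℝ)| ≤ 8 ^ n * (C : ℝ) ^ (2 * n) * (A : ℝ) ^ (2 * κ) := le_trans hQ1 hbnd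
  have hA1 : (1 : ℝ) ≤ (A : ℝ) ^ (2 * κ) := by
    have : (1 : ℝ) ≤ A := by exact_mod_cast hApos
    exact one_le_pow₀ this
  have hfin : ((B : ℝ)) ^ (4 * n) ≤ 2 * (A : ℝ) ^ (4 * κ) * 8 ^ n * (C : ℝ) ^ (2 * n) := by
    have h1 : ((B : ℝ)) ^ (4 * n) ≤ |(I : ℝ)| := by exact_mod_cast hle1
    have h2 : |(I : ℝ)| ≤ |(Q : ℝ)| + |(P : ℝ)| * (A : ℝ) ^ (2 * κ) := by
      have : (I : ℝ) = (Q : ℝ) - (P : ℝ) * (A : ℝ) ^ (2 * κ) := by rw [hI]; push_cast; ring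
      rw [this]
      refine (abs_sub _ _).trans (le_of_eq ?_)
      rw [abs_mul, abs_of_nonneg (by positivity : (0 : ℝ) ≤ (A : ℝ) ^ (2 * κ))]
    set D : ℝ := 8 ^ n * (C : ℝ) ^ (2 * n) with hD
    have hD0 : 0 < D := by positivity
    have h3 : (A : ℝ) ^ (4 * κ) = (A : ℝ) ^ (2 * κ) * (A : ℝ) ^ (2 * κ) := by
      rw [← pow_add]; congr 1; ring
    calc ((B : ℝ)) ^ (4 * n) ≤ |(I : ℝ)| := h1
      _ ≤ |(Q : ℝ)| + |(P : ℝ)| * (A : ℝ) ^ (2 * κ) := h2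
      _ ≤ D * (A : ℝ) ^ (2 * κ) + D * (A : ℝ) ^ (2 * κ) * (A : ℝ) ^ (2 * κ) := by
          apply add_le_add hQ2
          exact mul_le_mul_of_nonneg_right hP2 (by positivity)
      _ ≤ D * (A : ℝ) ^ (2 * κ) * (A : ℝ) ^ (2 * κ) + D * (A : ℝ) ^ (2 * κ) * (A : ℝ) ^ (2 * κ) := by
          apply add_le_add _ le_rfl
          have : D * (A : ℝ) ^ (2 * κ) * 1 ≤ D * (A : ℝ) ^ (2 * κ) * (A : ℝ) ^ (2 * κ) :=
            mul_le_mul_of_nonneg_left hA1 (by positivity)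
          linarith
      _ = 2 * (A : ℝ) ^ (4 * κ) * 8 ^ n * (C : ℝ) ^ (2 * n) := by rw [h3, hD]; ring
  exact_mod_cast hfin

end Pool.Agent.SHP.H40
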