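import Pool.Agent.SHP.Stmts

set_option autoImplicit false

namespace Pool.Agent.SHP.H40

theorem f1r (hpin : PinStmt) : F1rStmt := by
  intro f g x y z m hg hf hx hy hxz hm hmx h20 heq hexp
  have h12 : 10 ^ 12 * g ^ 2 ≤ f := by
    have h1 : (10 * g) ^ 12 = 10 ^ 12 * g ^ 12 := by ring
    have h2 : g ^ 2 ≤ g ^ 12 := Nat.pow_le_pow_right hg (by norm_num)
    exact le_trans (Nat.mul_le_mul_left _ h2) (h1 ▸ hf)
  have hg2 : 0 < g ^ 2 := by positivity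
  have hgg : g ≤ g ^ 2 := by nlinarith
  have hgf : g < f := by nlinarith
  have hfpos : 0 < f := by omega
  set A : ℕ := f ^ 2 - g ^ 2 with hA
  set B : ℕ := 2 * f * g with hB
  set C : ℕ := f ^ 2 + g ^ 2 with hC
  have hgf2 : g ^ 2 < f ^ 2 := Nat.pow_lt_pow_left hgf (by norm_num)
  have hAf : A + g ^ 2 = f ^ 2 := by omega
  have hApos : 0 < A := by omega
  have hBpos : 0 < B := Nat.mul_pos (Nat.mul_pos two_pos hfpos) hg
  have hAC : A + 2 * g ^ 2 = C := by omega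
  -- sizes
  have h25 : 25 * g ^ 2 ≤ f := by omega
  have hff : f ≤ f ^ 2 := by nlinarith
  have hBA : B < A := by
    have h1 : 2 * f * g + g ^ 2 < f ^ 2 := by
      have h2 : 3 * g ≤ f := by omega
      nlinarith
    omega
  have hA8 : 8 ≤ A := by omega
  obtain ⟨κ, rfl⟩ : ∃ κ, z = x + κ := ⟨z - x, by omega⟩
  have hκ : x + κ - x = κ := by omega
  rw [hκ] at hexp
  obtain ⟨P, Q, hne, -, -, hQ, hR⟩ := hpin x m hm hmx (A : ℤ) (2 * (g : ℤ) ^ 2)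
    (by exact_mod_cast hApos) (by positivity) 1 ((A : ℤ) ^ κ) (Or.inl one_ne_zero)
  set J : ℤ := Q * (A : ℤ) ^ κ - P * 1 with hJ
  have hJ1 : (1 : ℝ) ≤ |(J : ℝ)| := by
    have : (1 : ℤ) ≤ |J| := Int.one_le_abs hne
    exact_mod_cast this
  have hAR : (0 : ℝ) < (A : ℝ) := by exact_mod_cast hApos
  have hA8R : (8 : ℝ) ≤ (A : ℝ) := by exact_mod_cast hA8
  have hfR : (0 : ℝ) < (f : ℝ) := by exact_mod_cast hfpos
  have hgR : (0 : ℝ) < (g : ℝ) := by exact_mod_cast hg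
  have hBR : (0 : ℝ) < (B : ℝ) := by exact_mod_cast hBpos
  have hCR : (0 : ℝ) < (C : ℝ) := by
    have : 0 < C := by positivity
    exact_mod_cast this
  have hACR : (A : ℝ) + 2 * (g : ℝ) ^ 2 = C := by exact_mod_cast hAC
  have hAfR : (A : ℝ) + (g : ℝ) ^ 2 = (f : ℝ) ^ 2 := by exact_mod_cast hAf
  have h12R : (10 : ℝ) ^ 12 * (g : ℝ) ^ 2 ≤ f := by exact_mod_cast h12
  have h20R : 20 * (g : ℝ) ^ 2 * x ≤ f * m := by exact_mod_cast h20
  have heqR : (C : ℝ) ^ x + (B : ℝ) ^ y = (A : ℝ) ^ (x + κ) := by exact_mod_cast heq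
  have hb : |(((2 * (g : ℤ) ^ 2 : ℤ)) : ℝ)| = 2 * (g : ℝ) ^ 2 := by
    push_cast
    exact abs_of_nonneg (by positivity)
  have hAc : (((A : ℕ) : ℤ) : ℝ) = (A : ℝ) := by norm_cast
  -- the real estimate
  set ρ : ℝ := f / (20 * (g : ℝ) ^ 2) with hρ
  have hρ1 : 1 ≤ ρ := by
    rw [hρ, le_div_iff₀ (by positivity)]
    nlinarith
  have hρ0 : 0 < ρ := by linarith
  have hcond : 2 * |(((2 * (g : ℤ) ^ 2 : ℤ)) : ℝ)| * ρ ≤ (((A : ℕ) : ℤ) : ℝ) := by
    rw [hb, hAc, hρ]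
    have e1 : 2 * (2 * (g : ℝ) ^ 2) * (f / (20 * (g : ℝ) ^ 2)) = f / 5 := by
      field_simp; ring
    rw [e1]
    have h1 : (f : ℝ) ≤ (f : ℝ) ^ 2 := by exact_mod_cast hff
    have h2 : (g : ℝ) ^ 2 ≤ f / 25 := by nlinarith
    nlinarith
  have hR1 := hR ρ hρ1 hcond
  rw [hb, hAc] at hR1
  have hbc : (((2 * (g : ℤ) ^ 2 : ℤ)) : ℝ) = 2 * (g : ℝ) ^ 2 := by push_cast; ring
  rw [hbc] at hR1
  have hfirst : (A : ℝ) ^ m * (2 * (2 * (g : ℝ) ^ 2) * ρ / A) ^ (2 * m) * (1 + 1 / ρ) ^ (x + m)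
      ≤ 1 / 8 := by
    have e1 : 2 * (2 * (g : ℝ) ^ 2) * ρ = f / 5 := by
      rw [hρ]; field_simp; ring
    rw [e1, pow_mul, ← mul_pow]
    have h1 : (A : ℝ) * (f / 5 / A) ^ 2 ≤ 1 / 24 := by
      have e2 : (A : ℝ) * (f / 5 / A) ^ 2 = (f : ℝ) ^ 2 / (25 * A) := by field_simp; ring
      rw [e2, div_le_div_iff₀ (by positivity) (by norm_num)]
      have h2 : (f : ℝ) ≤ (f : ℝ) ^ 2 := by exact_mod_cast hff
      nlinarith
    have h2 : (1 + 1 / ρ) ^ (x + m) ≤ 3 ^ m := by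
      have h3 : 1 + 1 / ρ ≤ Real.exp (1 / ρ) := by
        have := Real.add_one_le_exp (1 / ρ)
        linarith
      have h4 : (1 + 1 / ρ) ^ (x + m) ≤ Real.exp (1 / ρ) ^ (x + m) :=
        pow_le_pow_left₀ (by positivity) h3 _
      have h5 : Real.exp (1 / ρ) ^ (x + m) = Real.exp ((x + m : ℕ) * (1 / ρ)) := by
        rw [Real.exp_nat_mul]
      have h6 : ((x + m : ℕ) : ℝ) * (1 / ρ) ≤ (m : ℝ) * (1 + 1 / 100) := by
        have e3 : (1 : ℝ) / ρ = 20 * (g : ℝ) ^ 2 / f := by rw [hρ]; field_simp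
        rw [e3]
        push_cast
        have h7 : (x : ℝ) * (20 * (g : ℝ) ^ 2 / f) ≤ m := by
          rw [mul_div_assoc', div_le_iff₀ hfR]
          nlinarith
        have h8 : 20 * (g : ℝ) ^ 2 / f ≤ 1 / 100 := by
          rw [div_le_div_iff₀ hfR (by norm_num)]
          nlinarith
        have h9 : (m : ℝ) * (20 * (g : ℝ) ^ 2 / f) ≤ m * (1 / 100) :=
          mul_le_mul_of_nonneg_left h8 (Nat.cast_nonneg m)
        calc ((x : ℝ) + m) * (20 * (g : ℝ) ^ 2 / f)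
            = (x : ℝ) * (20 * (g : ℝ) ^ 2 / f) + (m : ℝ) * (20 * (g : ℝ) ^ 2 / f) := by ring
          _ ≤ (m : ℝ) + (m : ℝ) * (1 / 100) := add_le_add h7 h9
          _ = (m : ℝ) * (1 + 1 / 100) := by ring
      have h10 : Real.exp (1 + 1 / 100) ≤ 3 := by
        rw [Real.exp_add]
        have h11 : Real.exp 1 < 2.7182818286 := Real.exp_one_lt_d9
        have h12 : Real.exp (1 / 100) ≤ 1 / (1 - 1 / 100) := by
          have h13 : 1 - 1 / 100 ≤ Real.exp (-(1 / 100 : ℝ)) := by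
            have := Real.add_one_le_exp (-(1 / 100 : ℝ))
            linarith
          rw [Real.exp_neg] at h13
          rw [le_div_iff₀ (by norm_num)]
          have h14 : 0 < Real.exp (1 / 100 : ℝ) := Real.exp_pos _
          have h15 : Real.exp (1 / 100 : ℝ) * (1 - 1 / 100) ≤
              Real.exp (1 / 100 : ℝ) * (Real.exp (1 / 100 : ℝ))⁻¹ :=
            mul_le_mul_of_nonneg_left h13 h14.le
          rwa [mul_inv_cancel₀ h14.ne'] at h15
        calc Real.exp 1 * Real.exp (1 / 100) ≤ 2.7182818286 * (1 / (1 - 1 / 100)) := by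
              apply mul_le_mul h11.le h12 (Real.exp_pos _).le (by norm_num)
          _ ≤ 3 := by norm_num
      calc (1 + 1 / ρ) ^ (x + m) ≤ Real.exp ((x + m : ℕ) * (1 / ρ)) := h5 ▸ h4
        _ ≤ Real.exp ((m : ℝ) * (1 + 1 / 100)) := Real.exp_le_exp.2 h6
        _ = Real.exp (1 + 1 / 100) ^ m := by rw [Real.exp_nat_mul]
        _ ≤ 3 ^ m := pow_le_pow_left₀ (Real.exp_pos _).le h10 m
    calc ((A : ℝ) * (f / 5 / A) ^ 2) ^ m * (1 + 1 / ρ) ^ (x + m)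
        ≤ (1 / 24) ^ m * 3 ^ m := by
          apply mul_le_mul (pow_le_pow_left₀ (by positivity) h1 m) h2 (by positivity) (by positivity)
      _ = (1 / 8) ^ m := by rw [← mul_pow]; norm_num
      _ ≤ (1 / 8) ^ 1 := pow_le_pow_of_le_one (by norm_num) (by norm_num) hm
      _ = 1 / 8 := by norm_num
  -- the second term
  have hQ1 := hQ 1 le_rfl
  rw [hb, hAc, one_pow, mul_one, mul_one] at hQ1
  have hv : 1 + 2 * (g : ℝ) ^ 2 / A = C / A := by rw [← hACR]; field_simp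
  rw [hv] at hQ1
  have hCA2 : (C : ℝ) / A ≤ 2 := by
    rw [div_le_iff₀ hAR]
    have h1 : (f : ℝ) ≤ (f : ℝ) ^ 2 := by exact_mod_cast hff
    nlinarith
  have hCx : ((C : ℝ) / A) ^ x ≤ (A : ℝ) ^ κ := by
    rw [div_pow, div_le_iff₀ (by positivity), ← pow_add, add_comm κ x, ← heqR]
    have : 0 < (B : ℝ) ^ y := by positivity
    linarith
  have hQ2 : |(Q : ℝ)| ≤ 8 ^ m * (A : ℝ) ^ m * (A : ℝ) ^ κ := by
    calc |(Q : ℝ)| ≤ 4 ^ m * (A : ℝ) ^ m * ((C : ℝ) / A) ^ (x + m) := hQ1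
      _ = 4 ^ m * (A : ℝ) ^ m * (((C : ℝ) / A) ^ x * ((C : ℝ) / A) ^ m) := by rw [pow_add]
      _ ≤ 4 ^ m * (A : ℝ) ^ m * ((A : ℝ) ^ κ * 2 ^ m) := by
          apply mul_le_mul_of_nonneg_left _ (by positivity)
          exact mul_le_mul hCx (pow_le_pow_left₀ (by positivity) hCA2 m) (by positivity) (by positivity)
      _ = (4 * 2) ^ m * (A : ℝ) ^ m * (A : ℝ) ^ κ := by rw [mul_pow]; ring
      _ = 8 ^ m * (A : ℝ) ^ m * (A : ℝ) ^ κ := by norm_num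
  have hsecond : |(Q : ℝ)| * ((B : ℝ) ^ y / (A : ℝ) ^ x) ≤ 1 / 8 := by
    have h1 : (B : ℝ) ^ y ≤ (A : ℝ) ^ y := by
      apply pow_le_pow_left₀ hBR.le
      exact_mod_cast hBA.le
    have h2 : |(Q : ℝ)| ≤ (A : ℝ) ^ (2 * m + κ) := by
      calc |(Q : ℝ)| ≤ 8 ^ m * (A : ℝ) ^ m * (A : ℝ) ^ κ := hQ2
        _ ≤ (A : ℝ) ^ m * (A : ℝ) ^ m * (A : ℝ) ^ κ := by
            apply mul_le_mul_of_nonneg_right _ (by positivity)
            apply mul_le_mul_of_nonneg_right _ (by positivity)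
            exact pow_le_pow_left₀ (by norm_num) hA8R m
        _ = (A : ℝ) ^ (2 * m + κ) := by rw [← pow_add, ← pow_add]; congr 1; ring
    rw [mul_div_assoc', div_le_div_iff₀ (by positivity) (by norm_num)]
    calc |(Q : ℝ)| * (B : ℝ) ^ y * 8 ≤ (A : ℝ) ^ (2 * m + κ) * (A : ℝ) ^ y * A := by
          apply mul_le_mul _ hA8R (by norm_num) (by positivity)
          exact mul_le_mul h2 h1 (by positivity) (by positivity)
      _ = (A : ℝ) ^ (2 * m + κ + y + 1) := by rw [← pow_add, ← pow_succ]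
      _ ≤ (A : ℝ) ^ x := pow_le_pow_right₀ (by linarith) (by omega)
      _ = 1 * (A : ℝ) ^ x := by ring
  -- conclusion
  have hJe : (J : ℝ) = ((Q : ℝ) * (1 + 2 * (g : ℝ) ^ 2 / A) ^ x - P)
      + (Q : ℝ) * ((B : ℝ) ^ y / (A : ℝ) ^ x) := by
    have h1 : (A : ℝ) ^ κ = (1 + 2 * (g : ℝ) ^ 2 / A) ^ x + (B : ℝ) ^ y / (A : ℝ) ^ x := by
      rw [hv, div_pow, ← add_div, heqR, pow_add]
      field_simp
    have h2 : (J : ℝ) = (Q : ℝ) * (A : ℝ) ^ κ - P := by rw [hJ]; push_cast; ring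
    rw [h2, h1]; ring
  have hlt : |(J : ℝ)| ≤ 1 / 8 + 1 / 8 := by
    rw [hJe]
    refine (abs_add_le _ _).trans ?_
    apply add_le_add (hR1.trans hfirst)
    rw [abs_mul, abs_of_nonneg (by positivity : (0 : ℝ) ≤ (B : ℝ) ^ y / (A : ℝ) ^ x)]
    exact hsecond
  linarith

end Pool.Agent.SHP.H40
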